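import Pool.Agent.H58.FL.Targets

/-!
Rows EXP, CMK, CEL of flb_modules (MP_6a7a6f_gt).
-/

set_option autoImplicit false

open Topology

namespace Pool.Agent.H48.FL

open Pool.Agent.H58.FL
open Pool.Agent.H59 (LL bdL mapL Dl vtx Smp Ch)
open Pool.Agent.H48.FR (CPn PP hp nrm pd)

noncomputable section

theorem pf_EXP : T_EXP := by
  intro X n k g
  induction k with
  | zero =>
    intro x
    rw [Fintype.sum_unique]
    simp [PL]
  | succ k ih =>
    intro x
    rw [List.replicate_succ]
    show (∑ l, g l (x 0) (x 1) (x 2)) *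
      PL (List.replicate k (fun a b c => ∑ l, g l a b c)) (sh 2 x) = _
    rw [ih (sh 2 x), Finset.sum_mul_sum, ← Fintype.sum_prod_type']
    refine Fintype.sum_equiv (Fin.consEquiv (fun _ => Fin n)) _ _ fun p => ?_
    rw [List.ofFn_succ]
    rfl

theorem pf_CMK : T_CMK := by
  intro A _ n v hv hc
  rw [continuous_iff_continuousAt]
  intro a0
  unfold ContinuousAt
  rw [tendsto_iff_dist_tendsto_zero]
  have h1 : (fun a => dist (mk (v a) (hv a)) (mk (v a0) (hv a0))) =
      fun a => Real.arccos (‖hp (v a) (v a0)‖ / (nrm (v a) * nrm (v a0))) := by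
    funext a
    exact Pool.Agent.H48.FR.dist_mk (hv a) (hv a0)
  rw [h1]
  have hhp : Continuous fun a => ‖hp (v a) (v a0)‖ := by
    unfold hp
    refine continuous_norm.comp (continuous_finsetSum _ fun i _ => ?_)
    exact ((continuous_apply i).comp hc).mul continuous_const
  have hn : Continuous fun a => nrm (v a) := by
    unfold nrm
    refine Real.continuous_sqrt.comp (continuous_finsetSum _ fun i _ => ?_)
    exact (continuous_norm.comp ((continuous_apply i).comp hc)).pow 2
  have hne : nrm (v a0) ≠ 0 := fun h => hv a0 ((Pool.Agent.H48.FR.nrm_eq_zero_iff _).1 h)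
  have h2 : ContinuousAt
      (fun a => Real.arccos (‖hp (v a) (v a0)‖ / (nrm (v a) * nrm (v a0)))) a0 := by
    refine Real.continuous_arccos.continuousAt.comp ?_
    exact hhp.continuousAt.div (hn.mul continuous_const).continuousAt (mul_ne_zero hne hne)
  have h3 : Real.arccos (‖hp (v a0) (v a0)‖ / (nrm (v a0) * nrm (v a0))) = 0 :=
    Pool.Agent.H48.FR.pd_self (hv a0)
  have h4 := h2.tendsto
  rw [h3] at h4
  exact h4

theorem pf_CEL : T_CEL := by
  intro Y _ d N H
  have p1 : ∀ (x : Fin d → Fin N) (π : Equiv.Perm (Fin d)) (q : Dl (d + 1)),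
      sx x π q ∈ cell x := by
    intro x π q i
    have hs : ∑ t, q t = 1 := stdSimplex.sum_eq_one q
    have h0 : ∀ t, 0 ≤ q t := fun t => stdSimplex.zero_le q t
    have e : sx x π q i = ∑ t : Fin (d + 1), q t * fv x π t i := rfl
    have hl : ∀ t, ((x i : ℕ) : ℝ) ≤ fv x π t i := by
      intro t
      unfold fv
      split_ifs <;> linarith
    have hu : ∀ t, fv x π t i ≤ ((x i : ℕ) : ℝ) + 1 := by
      intro t
      unfold fv
      split_ifs <;> linarith
    rw [e]
    constructor
    · calc ((x i : ℕ) : ℝ) = ∑ t, q t * ((x i : ℕ) : ℝ) := by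
            rw [← Finset.sum_mul, hs, one_mul]
        _ ≤ _ := Finset.sum_le_sum fun t _ => mul_le_mul_of_nonneg_left (hl t) (h0 t)
    · calc _ ≤ ∑ t, q t * (((x i : ℕ) : ℝ) + 1) :=
            Finset.sum_le_sum fun t _ => mul_le_mul_of_nonneg_left (hu t) (h0 t)
        _ = _ := by rw [← Finset.sum_mul, hs, one_mul]
  refine ⟨p1, ?_, ?_, ?_⟩
  · intro x π t
    funext i
    have e : sx x π (vtx (d + 1) t) i = ∑ s : Fin (d + 1), (vtx (d + 1) t) s * fv x π s i := rfl
    rw [e, Finset.sum_eq_single t]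
    · simp [vtx]
    · intro s _ hs
      simp [vtx, hs]
    · intro h
      exact absurd (Finset.mem_univ t) h
  · intro σ hσ
    rw [Finsupp.mem_support_iff] at hσ
    unfold ZZ at hσ
    rw [Finsupp.finsetSum_apply] at hσ
    obtain ⟨x, -, hx⟩ := Finset.exists_ne_zero_of_sum_ne_zero hσ
    rw [Finsupp.finsetSum_apply] at hx
    obtain ⟨π, -, hπ⟩ := Finset.exists_ne_zero_of_sum_ne_zero hx
    have : H.comp (sx x π) = σ := by
      by_contra hne
      exact hπ (Finsupp.single_eq_of_ne (Ne.symm hne))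
    refine ⟨x, ?_⟩
    rintro _ ⟨q, rfl⟩
    rw [← this]
    exact ⟨sx x π q, p1 x π q, rfl⟩
  · unfold ZZ vx
    rw [map_sum]
    refine Finset.sum_congr rfl fun x _ => ?_
    rw [map_sum]
    refine Finset.sum_congr rfl fun π _ => ?_
    rw [Finsupp.lmapDomain_apply, Finsupp.mapDomain_single]
    congr 1
    funext t
    show H (sx x π (vtx (d + 1) t)) = _
    congr 1
    funext i
    have e : sx x π (vtx (d + 1) t) i = ∑ s : Fin (d + 1), (vtx (d + 1) t) s * fv x π s i := rfl
    rw [e, Finset.sum_eq_single t]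
    · simp [vtx]
    · intro s _ hs
      simp [vtx, hs]
    · intro h
      exact absurd (Finset.mem_univ t) h

end

end Pool.Agent.H48.FL
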