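import Pool.Agent.H58.FL.Targets

/-!
Rows EVL, ZB, PRM, AA, AB of flb_modules (MP_6a7a6f_gt): cochains.
-/

set_option autoImplicit false

namespace Pool.Agent.H48.FL

open Pool.Agent.H58.FL
open Pool.Agent.H59 (LL bdL mapL)

noncomputable section

theorem pf_EVL : T_EVL := by
  intro X k
  refine ⟨fun α c c' => ?_, fun α r c => ?_, fun α β a c => ?_, fun ι s α c => ?_,
    fun α β c h => ?_, fun α c h => ?_, fun α Y φ c => ?_⟩
  · exact Finsupp.sum_add_index' (fun t => by simp) (fun t a b => by push_cast; ring)
  · unfold ev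
    rw [Finsupp.sum_smul_index' (fun t => by simp), Finsupp.sum, Finsupp.sum, Finset.mul_sum]
    refine Finset.sum_congr rfl fun t _ => ?_
    rw [smul_eq_mul]
    push_cast
    ring
  · unfold ev
    rw [Finsupp.sum, Finsupp.sum, Finsupp.sum, Finset.mul_sum, ← Finset.sum_add_distrib]
    refine Finset.sum_congr rfl fun t _ => ?_
    ring
  · unfold ev
    simp only [Finsupp.sum]
    rw [Finset.sum_comm]
    refine Finset.sum_congr rfl fun t _ => ?_
    rw [Finset.mul_sum]
  · unfold ev
    rw [Finsupp.sum, Finsupp.sum]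
    exact Finset.sum_congr rfl fun t ht => by rw [h t ht]
  · choose! r hr using h
    refine ⟨∑ t ∈ c.support, c t * r t, ?_⟩
    unfold ev
    rw [Finsupp.sum]
    push_cast
    exact Finset.sum_congr rfl fun t ht => by rw [hr t ht]
  · unfold ev
    have h1 := Finsupp.sum_mapDomain_index (f := fun v : Fin (k + 1) → Y => φ ∘ v) (s := c)
      (h := fun (t : Fin (k + 1) → X) (n : ℤ) => (n : ℝ) * α (ex t))
      (fun t => by simp) (fun t a b => by push_cast; ring)
    exact h1

theorem PL_lin {X : Type} (L L' : List (X → X → X → ℝ)) (g g' : X → X → X → ℝ) (s : ℝ)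
    (x : ℕ → X) : PL (L ++ (fun a b c => g a b c + s * g' a b c) :: L') x =
      PL (L ++ g :: L') x + s * PL (L ++ g' :: L') x := by
  induction L generalizing x with
  | nil =>
    show (g (x 0) (x 1) (x 2) + s * g' (x 0) (x 1) (x 2)) * PL L' (sh 2 x) =
      g (x 0) (x 1) (x 2) * PL L' (sh 2 x) + s * (g' (x 0) (x 1) (x 2) * PL L' (sh 2 x))
    ring
  | cons h L ih =>
    show h (x 0) (x 1) (x 2) * PL (L ++ (fun a b c => g a b c + s * g' a b c) :: L') (sh 2 x) =
      h (x 0) (x 1) (x 2) * PL (L ++ g :: L') (sh 2 x) +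
        s * (h (x 0) (x 1) (x 2) * PL (L ++ g' :: L') (sh 2 x))
    rw [ih]
    ring

theorem ev_lin (hEVL : T_EVL) {X : Type} (k : ℕ) (L L' : List (X → X → X → ℝ))
    (g g' : X → X → X → ℝ) (s : ℝ) (z : LL (k + 1) X) :
    ev k (PL (L ++ (fun a b c => g a b c + s * g' a b c) :: L')) z =
      ev k (PL (L ++ g :: L')) z + s * ev k (PL (L ++ g' :: L')) z := by
  have h1 : PL (L ++ (fun a b c => g a b c + s * g' a b c) :: L') =
      fun x => PL (L ++ g :: L') x + s * PL (L ++ g' :: L') x := by
    funext x
    exact PL_lin L L' g g' s x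
  rw [h1]
  exact (hEVL X k).2.2.1 _ _ s z

theorem exact_ev (hEVB : T_EVB) (hEVL : T_EVL) {X : Type} {K : Set (Set X)} (hK : Down K)
    (m k : ℕ) (hk : m = k + 1) (a A B : Coc X) (hdep : Dep k a)
    (h : ∀ x, fs m x ∈ K → A x = B x + dl k a x) (z : LL (m + 1) X) (hz : On K z)
    (hb : bdL m X z = 0) : ev m A z = ev m B z := by
  subst hk
  have h1 : ev (k + 1) A z = ev (k + 1) (fun x => B x + 1 * dl k a x) z := by
    refine (hEVL X (k + 1)).2.2.2.2.1 _ _ z fun t ht => ?_
    rw [one_mul]
    refine h _ (hK _ (hz t ht) _ ?_)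
    rintro y ⟨i, -, rfl⟩
    exact ⟨_, rfl⟩
  rw [h1, (hEVL X (k + 1)).2.2.1, ← hEVB X k a z hdep, hb]
  have h2 : ev k a (0 : LL (k + 1) X) = 0 := by
    unfold ev
    exact Finsupp.sum_zero_index
  rw [h2]
  ring

theorem dl_mid (hLEI : T_LEI) (hLOW : T_LOW) (hCPL : T_CPL) {X : Type} {K : Set (Set X)}
    (hK : Down K) (L L' : List (X → X → X → ℝ)) (hL : ∀ g ∈ L, Cl2 K g)
    (hL' : ∀ g ∈ L', Cl2 K g) (q : ℕ) (M : Coc X) (hM : Dep q M) (x : ℕ → X)
    (hx : fs (2 * L.length + (q + 2 * L'.length) + 1) x ∈ K) :
    dl (2 * L.length + (q + 2 * L'.length)) (cup (2 * L.length) (PL L) (cup q M (PL L'))) x =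
      PL L x * (dl q M (sh (2 * L.length) x) * PL L' (sh (q + 1) (sh (2 * L.length) x))) := by
  obtain ⟨-, -, -, -, -, -, hcup, -, hPL, -, -⟩ := hLOW X
  rw [hLEI X (2 * L.length) (q + 2 * L'.length) (PL L) _ (hPL L) x,
    hLEI X q (2 * L'.length) M (PL L') hM (sh (2 * L.length) x)]
  have h1 : dl (2 * L.length) (PL L) x = 0 := by
    refine hCPL X K hK L hL x (hK _ hx _ ?_)
    rintro y ⟨i, hi, rfl⟩
    exact ⟨i, by omega, rfl⟩
  have h2 : dl (2 * L'.length) (PL L') (sh q (sh (2 * L.length) x)) = 0 := by
    refine hCPL X K hK L' hL' _ (hK _ hx _ ?_)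
    rintro y ⟨i, hi, rfl⟩
    exact ⟨2 * L.length + (q + i), by omega, rfl⟩
  rw [h1, h2, pow_mul]
  norm_num

theorem pf_ZB (hLOW : T_LOW) (hLEI : T_LEI) (hEVB : T_EVB) (hEVL : T_EVL) (hCPL : T_CPL) :
    T_ZB := by
  intro X K hK n L L' g h g' h' ξ hn hL hL' hx z hz hb
  obtain ⟨-, -, h3, -, -, hd3, hcup, -, hPL, -, happ⟩ := hLOW X
  refine exact_ev hEVB hEVL hK (2 * n) (2 * L.length + (3 + 2 * L'.length)) (by omega)
    (cup (2 * L.length) (PL L) (cup 3 (c3 ξ) (PL L'))) _ _
    (hcup _ _ _ _ (hPL L) (hcup _ _ _ _ (hd3 ξ) (hPL L'))) ?_ z hz hb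
  intro x hfs
  rw [dl_mid hLEI hLOW hCPL hK L L' hL hL' 3 (c3 ξ) (hd3 ξ) x (by
    have : 2 * L.length + (3 + 2 * L'.length) + 1 = 2 * n := by omega
    rw [this]; exact hfs), h3, happ, happ]
  have hm : ∀ i, i ≤ 4 → sh (2 * L.length) x i ∈ fs (2 * n) x := fun i hi =>
    ⟨2 * L.length + i, by omega, rfl⟩
  rw [← hx _ hfs _ (hm 0 (by omega)) _ (hm 1 (by omega)) _ (hm 2 (by omega)) _ (hm 3 (by omega)) _
    (hm 4 (by omega))]
  have h4 : sh 2 (sh 2 (sh (2 * L.length) x)) = sh (3 + 1) (sh (2 * L.length) x) := by
    funext j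
    show x _ = x _
    congr 1
    omega
  show PL L x * (g (sh (2 * L.length) x 0) (sh (2 * L.length) x 1) (sh (2 * L.length) x 2) *
      (h (sh (2 * L.length) x 2) (sh (2 * L.length) x 3) (sh (2 * L.length) x 4) *
        PL L' (sh 2 (sh 2 (sh (2 * L.length) x))))) =
    PL L x * (g' (sh (2 * L.length) x 0) (sh (2 * L.length) x 1) (sh (2 * L.length) x 2) *
      (h' (sh (2 * L.length) x 2) (sh (2 * L.length) x 3) (sh (2 * L.length) x 4) *
        PL L' (sh 2 (sh 2 (sh (2 * L.length) x))))) + _
  rw [h4]
  ring

theorem swap_eq {X : Type} {K : Set (Set X)} (g h : X → X → X → ℝ) (hg : Cl2 K g)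
    (hh : Cl2 K h) (S : Set X) (hS : S ∈ K) (a : X) (ha : a ∈ S) (b : X) (hb : b ∈ S) (c : X)
    (hc : c ∈ S) (d : X) (hd : d ∈ S) (e : X) (he : e ∈ S) :
    g a b c * h c d e - h a b c * g c d e =
      d3 (fun x y z w => g x y w * h y z w - g x z w * h x y z) a b c d e := by
  have e1 := hg S hS a ha b hb c hc e he
  have e2 := hg S hS a ha c hc d hd e he
  have e3 := hg S hS a ha b hb d hd e he
  have f1 := hh S hS b hb c hc d hd e he
  have f2 := hh S hS a ha b hb c hc d hd
  simp only [d2] at e1 e2 e3 f1 f2
  simp only [d3]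
  linear_combination (-h c d e) * e1 - h a b c * e2 + h b c d * e3 + g a b e * f1 + g a d e * f2

theorem pf_PRM (hZB : T_ZB) : T_PRM := by
  intro X K hK n L L' hp hlen hcl z hz hb
  have key : ∀ (L L' : List (X → X → X → ℝ)), L.Perm L' → ∀ (P : List (X → X → X → ℝ)),
      (P ++ L).length = n → (∀ g ∈ P, Cl2 K g) → (∀ g ∈ L, Cl2 K g) →
      ev (2 * n) (PL (P ++ L)) z = ev (2 * n) (PL (P ++ L')) z := by
    intro L L' hp
    induction hp with
    | nil => intro P _ _ _; rfl
    | @cons g l₁ l₂ _ ih =>
      intro P h1 h2 h3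
      have := ih (P ++ [g]) (by simpa using h1) (by
        intro f hf
        rcases List.mem_append.1 hf with h | h
        · exact h2 f h
        · rw [List.mem_singleton.1 h]; exact h3 g (by simp)) (fun f hf => h3 f (by simp [hf]))
      simpa using this
    | swap g h l =>
      intro P h1 h2 h3
      refine hZB X K hK n P l h g g h (fun x y z w => h x y w * g y z w - h x z w * g x y z) ?_
        h2 (fun f hf => h3 f (by simp [hf])) ?_ z hz hb
      · simp only [List.length_append, List.length_cons] at h1
        omega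
      · intro S hS a ha b hb' c hc d hd e he
        exact swap_eq h g (h3 h (by simp)) (h3 g (by simp)) S hS a ha b hb' c hc d hd e he
    | @trans l₁ l₂ l₃ p1 p2 ih1 ih2 =>
      intro P h1 h2 h3
      rw [ih1 P h1 h2 h3]
      refine ih2 P ?_ h2 fun f hf => h3 f (p1.mem_iff.2 hf)
      rw [List.length_append, ← p1.length_eq, ← List.length_append]
      exact h1
  have := key L L' hp [] (by simpa using hlen) (by simp) hcl
  simpa using this

theorem pf_AA (hEVL : T_EVL) (hZB : T_ZB) (hPRM : T_PRM) : T_AA := by
  intro X K hK n f φ ξ hn hf hφ hx z hz hb h0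
  set ψ : X → X → X → ℝ := fun a b c => f a b c - φ a b c with hψ
  have hψc : Cl2 K ψ := by
    intro S hS a ha b hb' c hc d hd
    have e1 := hf S hS a ha b hb' c hc d hd
    have e2 := hφ S hS a ha b hb' c hc d hd
    simp only [d2, hψ] at e1 e2 ⊢
    linear_combination e1 - e2
  have hφ' : φ = fun a b c => f a b c + (-1) * ψ a b c := by
    funext a b c
    simp only [hψ]
    ring
  have hmem : ∀ (j k : ℕ) (g : X → X → X → ℝ), g ∈ List.replicate j ψ ++ List.replicate k f →
      Cl2 K g := by
    intro j k g hg
    rcases List.mem_append.1 hg with h | h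
    · rw [List.eq_of_mem_replicate h]; exact hψc
    · rw [List.eq_of_mem_replicate h]; exact hf
  -- V j
  have hV : ∀ j, j ≤ n - 1 →
      ev (2 * n) (PL (φ :: (List.replicate j ψ ++ List.replicate (n - 1 - j) f))) z =
      ev (2 * n) (PL (φ :: List.replicate (n - 1) f)) z := by
    intro j
    induction j with
    | zero => intro _; simp
    | succ j ih =>
      intro hj
      rw [← ih (by omega)]
      obtain ⟨m, hm⟩ : ∃ m, n - 1 - j = m + 1 := ⟨n - 1 - j - 1, by omega⟩
      have hm' : n - 1 - (j + 1) = m := by omega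
      rw [hm, hm']
      have e1 : List.replicate (j + 1) ψ ++ List.replicate m f =
          List.replicate j ψ ++ ψ :: List.replicate m f := by
        rw [List.replicate_succ', List.append_assoc, List.singleton_append]
      have e2 := ev_lin hEVL (2 * n) (φ :: List.replicate j ψ) (List.replicate m f) f ψ (-1) z
      rw [← hφ'] at e2
      have e3 : ev (2 * n) (PL ((φ :: List.replicate j ψ) ++ φ :: List.replicate m f)) z = 0 := by
        have p1 : List.Perm ((φ :: List.replicate j ψ) ++ φ :: List.replicate m f)
            (φ :: φ :: (List.replicate j ψ ++ List.replicate m f)) := by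
          rw [List.cons_append]
          exact List.Perm.cons _ List.perm_middle
        rw [hPRM X K hK n _ _ p1 (by simp; omega) (by
          intro g hg
          rcases List.mem_append.1 hg with h | h
          · rcases List.mem_cons.1 h with h | h
            · rw [h]; exact hφ
            · rw [List.eq_of_mem_replicate h]; exact hψc
          · rcases List.mem_cons.1 h with h | h
            · rw [h]; exact hφ
            · rw [List.eq_of_mem_replicate h]; exact hf) z hz hb]
        have e4 := hZB X K hK n [] (List.replicate j ψ ++ List.replicate m f) φ φ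
          (fun _ _ _ => 0) (fun _ _ _ => 0) ξ (by simp; omega) (by simp) (hmem j m) (by
            intro S hS a ha b hb' c hc d hd e he
            rw [hx S hS a ha b hb' c hc d hd e he]
            ring) z hz hb
        rw [List.nil_append, List.nil_append] at e4
        rw [e4]
        have e5 : PL ((fun _ _ _ => 0) :: (fun _ _ _ => 0) ::
            (List.replicate j ψ ++ List.replicate m f)) = fun _ : ℕ → X => (0 : ℝ) := by
          funext x
          show (0 : ℝ) * _ = 0
          ring
        rw [e5]
        simp [ev]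
      rw [e3] at e2
      rw [e1, List.replicate_succ]
      rw [List.cons_append, List.cons_append] at e2
      linear_combination e2
  have hW : ∀ j, j ≤ n → ev (2 * n) (PL (List.replicate n f)) z =
      ev (2 * n) (PL (List.replicate j ψ ++ List.replicate (n - j) f)) z +
        j * ev (2 * n) (PL (φ :: List.replicate (n - 1) f)) z := by
    intro j
    induction j with
    | zero => intro _; simp
    | succ j ih =>
      intro hj
      rw [ih (by omega)]
      obtain ⟨m, hm⟩ : ∃ m, n - j = m + 1 := ⟨n - j - 1, by omega⟩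
      have hm' : n - (j + 1) = m := by omega
      have hm2 : n - 1 - j = m := by omega
      rw [hm, hm']
      have e1 : List.replicate (j + 1) ψ ++ List.replicate m f =
          List.replicate j ψ ++ ψ :: List.replicate m f := by
        rw [List.replicate_succ', List.append_assoc, List.singleton_append]
      have e2 := ev_lin hEVL (2 * n) (List.replicate j ψ) (List.replicate m f) f ψ (-1) z
      rw [← hφ'] at e2
      have e3 := hPRM X K hK n (List.replicate j ψ ++ φ :: List.replicate m f)
        (φ :: (List.replicate j ψ ++ List.replicate m f)) List.perm_middle (by simp; omega) (by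
          intro g hg
          rcases List.mem_append.1 hg with h | h
          · rw [List.eq_of_mem_replicate h]; exact hψc
          · rcases List.mem_cons.1 h with h | h
            · rw [h]; exact hφ
            · rw [List.eq_of_mem_replicate h]; exact hf) z hz hb
      have e4 := hV j (by omega)
      rw [hm2] at e4
      rw [e1, List.replicate_succ]
      rw [e3, e4] at e2
      push_cast
      linear_combination (-1) * e2
  have := hW n le_rfl
  rw [this, Nat.sub_self]
  simp only [List.replicate_zero, List.append_nil]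
  rw [h0]
  ring

theorem cl_exact {X : Type} (K : Set (Set X)) (g : X → X → X → ℝ) (hg : Cl2 K g)
    (θ : X → X → ℝ) (s : ℝ) : Cl2 K (fun a b c => s * g a b c - d1 θ a b c) := by
  intro S hS a ha b hb c hc d hd
  have e := hg S hS a ha b hb c hc d hd
  simp only [d2, d1] at e ⊢
  linear_combination s * e

theorem pf_AB (_hLOW : T_LOW) (hEVL : T_EVL) (hZA : T_ZA) : T_AB := by
  intro X K hK n f φ θ lam hn hf hφ z hz hb
  set F : X → X → X → ℝ := fun a b c => f a b c - d1 θ a b c with hF
  set G : X → X → X → ℝ := fun a b c => 2 * φ a b c - d1 lam a b c with hG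
  have hGc : Cl2 K G := cl_exact K φ hφ lam 2
  have hFc : Cl2 K F := by
    have := cl_exact K f hf θ 1
    simpa only [one_mul] using this
  have hU : ∀ j, j ≤ n - 1 →
      ev (2 * n) (PL (G :: (List.replicate j F ++ List.replicate (n - 1 - j) f))) z =
      ev (2 * n) (PL (G :: List.replicate (n - 1) f)) z := by
    intro j
    induction j with
    | zero => intro _; simp
    | succ j ih =>
      intro hj
      rw [← ih (by omega)]
      obtain ⟨m, hm⟩ : ∃ m, n - 1 - j = m + 1 := ⟨n - 1 - j - 1, by omega⟩
      have hm' : n - 1 - (j + 1) = m := by omega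
      rw [hm, hm']
      have e1 : List.replicate (j + 1) F ++ List.replicate m f =
          List.replicate j F ++ F :: List.replicate m f := by
        rw [List.replicate_succ', List.append_assoc, List.singleton_append]
      have e2 := ev_lin hEVL (2 * n) (G :: List.replicate j F) (List.replicate m f) f
        (d1 θ) (-1) z
      have e3 := hZA X K hK n (G :: List.replicate j F) (List.replicate m f) θ (by simp; omega)
        (by
          intro g hg
          rcases List.mem_cons.1 hg with h | h
          · rw [h]; exact hGc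
          · rw [List.eq_of_mem_replicate h]; exact hFc)
        (by intro g hg; rw [List.eq_of_mem_replicate hg]; exact hf) z hz hb
      have e4 : F = fun a b c => f a b c + (-1) * d1 θ a b c := by
        funext a b c
        simp only [hF]
        ring
      rw [← e4, e3] at e2
      rw [e1, List.replicate_succ]
      rw [List.cons_append, List.cons_append] at e2
      linear_combination e2
  have h1 := hU (n - 1) le_rfl
  rw [Nat.sub_self] at h1
  simp only [List.replicate_zero, List.append_nil] at h1
  rw [h1]
  have e2 := ev_lin hEVL (2 * n) [] (List.replicate (n - 1) f) (fun a b c => 2 * φ a b c)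
    (d1 lam) (-1) z
  have e3 := hZA X K hK n [] (List.replicate (n - 1) f) lam (by simp; omega) (by simp)
    (by intro g hg; rw [List.eq_of_mem_replicate hg]; exact hf) z hz hb
  have e4 : G = fun a b c => 2 * φ a b c + (-1) * d1 lam a b c := by
    funext a b c
    simp only [hG]
    ring
  have e5 := ev_lin hEVL (2 * n) [] (List.replicate (n - 1) f) (fun _ _ _ => 0) φ 2 z
  have e6 : (fun a b c => (0 : ℝ) + 2 * φ a b c) = fun a b c => 2 * φ a b c := by
    funext a b c
    ring
  have e7 : ev (2 * n) (PL ((fun _ _ _ => 0) :: List.replicate (n - 1) f)) z = 0 := by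
    have e5 : PL ((fun _ _ _ => 0) :: List.replicate (n - 1) f) = fun _ : ℕ → X => (0 : ℝ) := by
      funext x
      show (0 : ℝ) * _ = 0
      ring
    rw [e5]
    simp [ev]
  rw [List.nil_append] at e3
  rw [← e4, List.nil_append, List.nil_append, List.nil_append, e3] at e2
  rw [e6, List.nil_append, List.nil_append, List.nil_append, e7] at e5
  rw [e2, e5]
  ring

end

end Pool.Agent.H48.FL
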